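import Pool.Agent.K1H88.DF.Stm
import Pool.Agent.K1H1.DP.HallDual
import Pool.Agent.K1H10.DP.FinTrans

/-! Piece INV of project DF. -/

set_option autoImplicit false
set_option linter.unusedSectionVars false

namespace Pool.Agent.K1H1.DF.Inv

open Module NumberField Pool.Agent.K1H88 Pool.Agent.K1H88.DF Function
open Pool.Agent.K1H88.DP (Kp pl vn cont)

section

variable (F : Type) [Field F] [NumberField F] {ι : Type} [Fintype ι] (E : ι → Type)
  [∀ k, Field (E k)] [∀ k, NumberField (E k)] [∀ k, Algebra F (E k)]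
  {K : Type} [NormedField K] [CharZero K]

omit [NumberField F] [Fintype ι] [∀ k, NumberField (E k)] [CharZero K] in
theorem pl_lin (u : F →+* K) (x y : ∀ k, E k) (a b c d : F) (i j : EmbU F E u) :
    pl E (a • x + b • y) (c • x + d • y) i.1 j.1 = u (a * d - b * c) * pl E x y i.1 j.1 := by
  have h : ∀ (r : F) (z : ∀ k, E k) (i : EmbU F E u), i.1.2 ((r • z) i.1.1) =
      u r * i.1.2 (z i.1.1) := by
    intro r z i
    have h1 : i.1.2 (algebraMap F (E i.1.1) r) = u r := RingHom.congr_fun i.2 r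
    rw [Pi.smul_apply, Algebra.smul_def, map_mul, h1]
  simp only [pl, Pi.add_apply, map_add, h, map_sub, map_mul]
  ring

theorem loc_lin (u : F →+* K) (x y : ∀ k, E k) (a b c d : F) :
    loc F E u (a • x + b • y) (c • x + d • y) =
      ‖u (a * d - b * c)‖ ^ (Fintype.card (EmbU F E u)) * loc F E u x y := by
  unfold loc
  rw [Real.mul_iSup_of_nonneg (by positivity)]
  congr 1
  funext π
  rw [← Finset.card_univ, ← Finset.prod_const, ← Finset.prod_mul_distrib]
  refine Finset.prod_congr rfl fun i _ => ?_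
  rw [pl_lin, norm_mul]

theorem loc_one (u : F →+* K) (x y : ∀ k, E k)
    (h : ∀ i j : EmbU F E u, i ≠ j → ‖pl E x y i.1 j.1‖ = 1)
    (hc : 2 ≤ Fintype.card (EmbU F E u)) : loc F E u x y = 1 := by
  classical
  obtain ⟨π, hπ⟩ := Pool.Agent.K1H1.DP.t_HALL (EmbU F E u) Eq eq_equivalence (by
    intro i
    have : Nat.card {j // i = j} = 1 := by
      rw [Nat.card_eq_fintype_card, Fintype.card_subtype_eq']
    omega)
  refine le_antisymm ?_ ?_
  · refine ciSup_le ?_
    intro τ
    by_cases hf : ∀ i, i ≠ τ i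
    · rw [Finset.prod_eq_one fun i _ => h i (τ i) (hf i)]
    · push Not at hf
      obtain ⟨i, hi⟩ := hf
      rw [Finset.prod_eq_zero (Finset.mem_univ i)]
      · exact zero_le_one
      · rw [← hi]
        simp [pl]
  · have h1 : ∏ i, ‖pl E x y i.1 (π i).1‖ = 1 :=
      Finset.prod_eq_one fun i _ => h i (π i) (hπ i)
    calc (1 : ℝ) = ∏ i, ‖pl E x y i.1 (π i).1‖ := h1.symm
      _ ≤ _ := le_ciSup (f := fun π : Equiv.Perm (EmbU F E u) => ∏ i, ‖pl E x y i.1 (π i).1‖)
        (Set.finite_range _).bddAbove π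

end

/-- INV from CARD, TRANS and PF. -/
theorem t_INV (hC : S_CARD) (hT : S_TRANS) (hP : S_PF) : S_INV := by
  intro F _ _ ι _ E _ _ _ x y hxy h3 a b c d hD
  obtain ⟨-, hT2⟩ := hT F ι E x y hxy
  have hfin := Pool.Agent.K1H10.DP.t_FIN F (a * d - b * c) hD
  refine ⟨?_, ?_⟩
  · intro u i j hij
    rw [pl_lin]
    exact mul_ne_zero ((map_ne_zero u).mpr hD) (hxy u i j hij)
  · have e1 : ∀ p : Nat.Primes, ∏ u : F →+* Kp p, loc F E u (a • x + b • y) (c • x + d • y) =
        (∏ u : F →+* Kp p, ‖u (a * d - b * c)‖) ^ deg F E * ∏ u : F →+* Kp p, loc F E u x y := by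
      intro p
      rw [← Finset.prod_pow, ← Finset.prod_mul_distrib]
      refine Finset.prod_congr rfl fun u _ => ?_
      rw [loc_lin, hC F ι E (Kp p) u]
    have e0 : ∏ u : F →+* ℂ, loc F E u (a • x + b • y) (c • x + d • y) =
        (∏ u : F →+* ℂ, ‖u (a * d - b * c)‖) ^ deg F E * ∏ u : F →+* ℂ, loc F E u x y := by
      rw [← Finset.prod_pow, ← Finset.prod_mul_distrib]
      refine Finset.prod_congr rfl fun u _ => ?_
      rw [loc_lin, hC F ι E ℂ u]
    have h5 : HasFiniteMulSupport (fun p : Nat.Primes => ∏ u : F →+* Kp p, loc F E u x y) := by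
      refine hT2.subset ?_
      intro p hp
      by_contra hcon
      apply hp
      refine Finset.prod_eq_one fun u _ => ?_
      refine loc_one F E u x y ?_ ?_
      · intro i j hij
        by_contra h6
        exact hcon ⟨u, i, j, hij, h6⟩
      · rw [hC F ι E (Kp p) u]; omega
    have h1 : HasFiniteMulSupport
        (fun p : Nat.Primes => ∏ u : F →+* Kp p, ‖u (a * d - b * c)‖) := by
      refine hfin.subset ?_
      intro p hp
      by_contra hcon
      apply hp
      refine Finset.prod_eq_one fun u _ => ?_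
      by_contra h6
      exact hcon ⟨u, h6⟩
    have h6 : HasFiniteMulSupport
        (fun p : Nat.Primes => (∏ u : F →+* Kp p, ‖u (a * d - b * c)‖) ^ deg F E) := by
      refine h1.subset ?_
      intro p hp hp2
      apply hp
      have : ∏ u : F →+* Kp p, ‖u (a * d - b * c)‖ = 1 := hp2
      show (∏ u : F →+* Kp p, ‖u (a * d - b * c)‖) ^ deg F E = 1
      rw [this, one_pow]
    have h2 : (∏ᶠ p : Nat.Primes, ∏ u : F →+* Kp p, ‖u (a * d - b * c)‖) *
        ∏ u : F →+* ℂ, ‖u (a * d - b * c)‖ = 1 := by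
      rw [← hP F (a * d - b * c) hD]
      congr 1
      unfold cont
      refine finprod_congr fun p => Finset.prod_congr rfl fun u _ => ?_
      rw [map_zero, norm_zero, max_eq_left (norm_nonneg _)]
    unfold ht
    rw [finprod_congr e1, e0, finprod_mul_distrib h6 h5, ← finprod_pow h1]
    set A := ∏ᶠ p : Nat.Primes, ∏ u : F →+* Kp p, ‖u (a * d - b * c)‖
    set B := ∏ u : F →+* ℂ, ‖u (a * d - b * c)‖
    calc B ^ deg F E * (∏ u : F →+* ℂ, loc F E u x y) *
          (A ^ deg F E * ∏ᶠ p : Nat.Primes, ∏ u : F →+* Kp p, loc F E u x y)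
        = (A * B) ^ deg F E * ((∏ u : F →+* ℂ, loc F E u x y) *
          ∏ᶠ p : Nat.Primes, ∏ u : F →+* Kp p, loc F E u x y) := by ring
      _ = _ := by rw [h2, one_pow, one_mul]

end Pool.Agent.K1H1.DF.Inv
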