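import Pool.Agent.K1H22.DF.Stm

/-! # Project DF (MP_1438b7_co): the lower bound for diameter 3 -/

set_option autoImplicit false

open Finset
open Pool.Agent.K1H22.DF

namespace Pool.Agent.K1H1.DF

section

variable {V : Type*} [Fintype V] [DecidableEq V] (G : SimpleGraph V) [DecidableRel G.Adj]

theorem hub_card (D : ℕ) : (hub G D).card * D ≤ 2 * G.edgeFinset.card := by
  rw [← G.sum_degrees_eq_twice_card_edges]
  calc (hub G D).card * D = ∑ v ∈ hub G D, D := by rw [Finset.sum_const, smul_eq_mul]
    _ ≤ ∑ v ∈ hub G D, G.degree v :=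
        Finset.sum_le_sum fun v hv => (Finset.mem_filter.mp hv).2
    _ ≤ ∑ v, G.degree v :=
        Finset.sum_le_sum_of_subset (Finset.subset_univ _)

theorem edges_ge (D : ℕ) :
    ∑ v ∈ univ.filter (fun v => v ∉ hub G D), (hn G D v).card ≤ G.edgeFinset.card := by
  rw [← Finset.card_sigma]
  refine Finset.card_le_card_of_injOn (fun p : (_ : V) × V => s(p.1, p.2)) ?_ ?_
  · rintro ⟨v, x⟩ hp
    simp only [Finset.coe_sigma, Set.mem_sigma_iff, Finset.mem_coe, hn, Finset.mem_filter,
      SimpleGraph.mem_neighborFinset] at hp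
    simp only [Finset.mem_coe, SimpleGraph.mem_edgeFinset, SimpleGraph.mem_edgeSet]
    exact hp.2.1
  · rintro ⟨v, x⟩ hp ⟨v', x'⟩ hp' h
    simp only [Finset.coe_sigma, Set.mem_sigma_iff, Finset.mem_coe, hn, Finset.mem_filter,
      Finset.mem_univ, true_and] at hp hp'
    simp only [Sym2.eq_iff] at h
    rcases h with ⟨h1, h2⟩ | ⟨h1, h2⟩
    · rw [h1, h2]
    · exact absurd (h1 ▸ hp'.2.2) hp.1

theorem lower (D k C : ℕ)
    (hC : (univ.filter (fun v => v ∉ hub G D ∧ (hn G D v).card < k)).card ≤ C) :
    k * Fintype.card V ≤ G.edgeFinset.card + k * (hub G D).card + k * C := by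
  classical
  set B : Finset V := univ.filter (fun v => v ∉ hub G D) with hB
  set L : Finset V := univ.filter (fun v => v ∉ hub G D ∧ (hn G D v).card < k) with hL
  have hBc : B.card + (hub G D).card = Fintype.card V := by
    have : B = (hub G D)ᶜ := by
      ext v
      simp [hB]
    rw [this, Finset.card_compl]
    have := Finset.card_le_univ (hub G D)
    omega
  have hLB : L ⊆ B := by
    intro v hv
    simp only [hL, hB, Finset.mem_filter, Finset.mem_univ, true_and] at hv ⊢
    exact hv.1
  have h1 : (B \ L).card * k ≤ G.edgeFinset.card := by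
    refine le_trans ?_ (edges_ge G D)
    calc (B \ L).card * k = ∑ v ∈ B \ L, k := by rw [Finset.sum_const, smul_eq_mul]
      _ ≤ ∑ v ∈ B \ L, (hn G D v).card := by
          refine Finset.sum_le_sum fun v hv => ?_
          simp only [hL, hB, Finset.mem_sdiff, Finset.mem_filter, Finset.mem_univ, true_and,
            not_and, not_lt] at hv
          exact hv.2 hv.1
      _ ≤ ∑ v ∈ B, (hn G D v).card := Finset.sum_le_sum_of_subset Finset.sdiff_subset
  have h2 : (B \ L).card + L.card = B.card := by
    rw [Finset.card_sdiff_of_subset hLB]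
    have := Finset.card_le_card hLB
    omega
  calc k * Fintype.card V = k * ((B \ L).card + L.card + (hub G D).card) := by rw [h2, hBc]
    _ = (B \ L).card * k + k * (hub G D).card + k * L.card := by ring
    _ ≤ G.edgeFinset.card + k * (hub G D).card + k * C :=
        Nat.add_le_add (Nat.add_le_add_right h1 _) (Nat.mul_le_mul_left k hC)

end

/-- the lower bound for `d = 3` -/
theorem t_L3 (h : S_FEW3) : S_L3 := by
  intro k hk ε hε
  obtain ⟨D, hD⟩ := exists_nat_gt (4 * (k : ℝ) ^ 2 / ε)
  obtain ⟨C, hC⟩ := h k D hk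
  obtain ⟨N, hN⟩ := exists_nat_gt (2 * (k : ℝ) * C / ε)
  refine ⟨N, fun n hn G hG => ?_⟩
  classical
  have hcard : (G.edgeSet.ncard : ℝ) = (G.edgeFinset.card : ℝ) := by
    rw [Set.ncard_eq_toFinset_card', SimpleGraph.edgeFinset]
  rw [hcard]
  have hk0 : (0 : ℝ) < k := by exact_mod_cast hk
  have hD0 : (0 : ℝ) < D := lt_trans (by positivity) hD
  have hn0 : (0 : ℝ) ≤ n := Nat.cast_nonneg n
  by_cases he : (G.edgeFinset.card : ℝ) ≤ k * n
  · have h1 := hub_card G D
    have h2 := lower G D k C (hC (Fin n) G hG)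
    rw [Fintype.card_fin] at h2
    have h1' : ((hub G D).card : ℝ) * D ≤ 2 * G.edgeFinset.card := by exact_mod_cast h1
    have h2' : (k : ℝ) * n ≤ G.edgeFinset.card + k * (hub G D).card + k * C := by
      exact_mod_cast h2
    have h3 : (hub G D).card * (4 * (k : ℝ) ^ 2) ≤ 2 * (k * n) * ε := by
      have h4 : 4 * (k : ℝ) ^ 2 ≤ D * ε := by
        rw [div_lt_iff₀ hε] at hD
        exact hD.le
      calc (hub G D).card * (4 * (k : ℝ) ^ 2) ≤ (hub G D).card * (D * ε) :=
            mul_le_mul_of_nonneg_left h4 (Nat.cast_nonneg _)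
        _ = ((hub G D).card * D) * ε := by ring
        _ ≤ (2 * (k * n)) * ε := by
            apply mul_le_mul_of_nonneg_right _ hε.le
            linarith
    have h5 : (k : ℝ) * (hub G D).card ≤ ε * n / 2 := by
      have : (4 * (k : ℝ)) * (k * (hub G D).card) ≤ (4 * (k : ℝ)) * (ε * n / 2) := by
        nlinarith
      exact le_of_mul_le_mul_left this (by positivity)
    have h6 : (k : ℝ) * C ≤ ε * n / 2 := by
      have hNn : (N : ℝ) ≤ n := by exact_mod_cast hn
      rw [div_lt_iff₀ hε] at hN
      nlinarith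
    linarith
  · push Not at he
    have : 0 ≤ ε * n := by positivity
    linarith

end Pool.Agent.K1H1.DF
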